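import Pool.Agent.CL.Stmt

/-!
# Project CL: the complete Boolean algebra of regular sets of a preorder

`p ≤ q` means that `p` is the stronger condition. Adapted from `Pool/Agent/H46/BorelPow/RO.lean`.
-/

set_option autoImplicit false

namespace Pool.Agent.CL

universe u v w

/-- regular subsets of a preorder: `p ∈ S` iff `S` is dense below `p` -/
def IsReg {Q : Type u} [Preorder Q] (S : Set Q) : Prop :=
  ∀ p, p ∈ S ↔ ∀ q, q ≤ p → ∃ r, r ≤ q ∧ r ∈ S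

lemma IsReg.down {Q : Type u} [Preorder Q] {S : Set Q} (h : IsReg S) {p q : Q} (hp : p ∈ S)
    (hq : q ≤ p) : q ∈ S := by
  rw [h]
  intro r hr
  exact (h p).1 hp r (hr.trans hq)

/-- regularisation -/
def reg {Q : Type u} [Preorder Q] (S : Set Q) : Set Q := {p | ∀ q, q ≤ p → ∃ r, r ≤ q ∧ r ∈ S}

lemma isReg_reg {Q : Type u} [Preorder Q] (S : Set Q) : IsReg (reg S) := by
  intro p
  constructor
  · intro hp q hq
    exact ⟨q, le_rfl, fun r hr => hp r (hr.trans hq)⟩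
  · intro h q hq
    obtain ⟨r, hr, hrS⟩ := h q hq
    obtain ⟨s, hs, hsS⟩ := hrS r le_rfl
    exact ⟨s, hs.trans hr, hsS⟩

/-- the type of regular subsets -/
structure RO (Q : Type u) [Preorder Q] where
  /-- the underlying set -/
  S : Set Q
  isReg : IsReg S

namespace RO

variable {Q : Type u} [Preorder Q]

@[ext] lemma ext' {a b : RO Q} (h : ∀ p, p ∈ a.S ↔ p ∈ b.S) : a = b := by
  cases a; cases b
  congr
  exact Set.ext h

instance : CompleteBooleanAlgebra (RO Q) where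
  le a b := a.S ⊆ b.S
  le_refl _ := subset_rfl
  le_trans _ _ _ h1 h2 := h1.trans h2
  le_antisymm a b h1 h2 := ext' fun p => ⟨fun h => h1 h, fun h => h2 h⟩
  sup a b := ⟨reg (a.S ∪ b.S), isReg_reg _⟩
  le_sup_left a b := fun p hp q hq => ⟨q, le_rfl, Or.inl (a.isReg.down hp hq)⟩
  le_sup_right a b := fun p hp q hq => ⟨q, le_rfl, Or.inr (b.isReg.down hp hq)⟩
  sup_le a b c h1 h2 := fun p hp => by
    rw [c.isReg]
    intro q hq
    obtain ⟨r, hr, hrS⟩ := hp q hq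
    rcases hrS with h | h
    · exact ⟨r, hr, h1 h⟩
    · exact ⟨r, hr, h2 h⟩
  inf a b := ⟨a.S ∩ b.S, fun p => by
    constructor
    · intro hp q hq
      exact ⟨q, le_rfl, a.isReg.down hp.1 hq, b.isReg.down hp.2 hq⟩
    · intro h
      constructor
      · rw [a.isReg]; intro q hq; obtain ⟨r, h1, h2⟩ := h q hq; exact ⟨r, h1, h2.1⟩
      · rw [b.isReg]; intro q hq; obtain ⟨r, h1, h2⟩ := h q hq; exact ⟨r, h1, h2.2⟩⟩
  inf_le_left a b := fun p hp => hp.1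
  inf_le_right a b := fun p hp => hp.2
  le_inf a b c h1 h2 := fun p hp => ⟨h1 hp, h2 hp⟩
  sSup s := ⟨reg (⋃ a ∈ s, a.S), isReg_reg _⟩
  isLUB_sSup s := by
    constructor
    · intro a ha p hp q hq
      exact ⟨q, le_rfl, Set.mem_biUnion ha (a.isReg.down hp hq)⟩
    · intro b hb p hp
      rw [b.isReg]
      intro q hq
      obtain ⟨r, hr, hrS⟩ := hp q hq
      simp only [Set.mem_iUnion] at hrS
      obtain ⟨a, ha, hra⟩ := hrS
      exact ⟨r, hr, hb ha hra⟩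
  sInf s := ⟨⋂ a ∈ s, a.S, fun p => by
    constructor
    · intro hp q hq
      refine ⟨q, le_rfl, ?_⟩
      simp only [Set.mem_iInter] at hp ⊢
      exact fun a ha => a.isReg.down (hp a ha) hq
    · intro h
      simp only [Set.mem_iInter]
      intro a ha
      rw [a.isReg]
      intro q hq
      obtain ⟨r, h1, h2⟩ := h q hq
      simp only [Set.mem_iInter] at h2
      exact ⟨r, h1, h2 a ha⟩⟩
  isGLB_sInf s := by
    constructor
    · intro a ha p hp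
      have hp' : p ∈ ⋂ a ∈ s, a.S := hp
      simp only [Set.mem_iInter] at hp'
      exact hp' a ha
    · intro b hb p hp
      show p ∈ ⋂ a ∈ s, a.S
      simp only [Set.mem_iInter]
      exact fun a ha => hb ha hp
  top := ⟨Set.univ, fun p => by simp; intro q _; exact ⟨q, le_rfl⟩⟩
  bot := ⟨∅, fun p => by simp; exact ⟨p, le_rfl⟩⟩
  le_top _ := Set.subset_univ _
  bot_le _ := Set.empty_subset _
  compl a := ⟨{p | ∀ q, q ≤ p → q ∉ a.S}, fun p => by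
    constructor
    · intro hp q hq
      exact ⟨q, le_rfl, fun r hr => hp r (hr.trans hq)⟩
    · intro h q hq hqa
      obtain ⟨r, hr, hrS⟩ := h q hq
      exact hrS r le_rfl (a.isReg.down hqa hr)⟩
  inf_compl_le_bot a := fun p hp => hp.2 p le_rfl hp.1
  top_le_sup_compl a := fun p _ q _ => by
    by_cases h : ∃ r, r ≤ q ∧ r ∈ a.S
    · obtain ⟨r, h1, h2⟩ := h
      exact ⟨r, h1, Or.inl h2⟩
    · exact ⟨q, le_rfl, Or.inr fun r hr hra => h ⟨r, hr, hra⟩⟩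
  le_sup_inf a b c := fun p hp q hq => by
    obtain ⟨r, hr, hr'⟩ := hp.1 q hq
    rcases hr' with h | h
    · exact ⟨r, hr, Or.inl h⟩
    · obtain ⟨s, hs, hs'⟩ := hp.2 r (hr.trans hq)
      rcases hs' with h' | h'
      · exact ⟨s, hs.trans hr, Or.inl h'⟩
      · exact ⟨s, hs.trans hr, Or.inr ⟨b.isReg.down h hs, h'⟩⟩

lemma le_def {a b : RO Q} : a ≤ b ↔ a.S ⊆ b.S := Iff.rfl

lemma mem_top (p : Q) : p ∈ (⊤ : RO Q).S := trivial

lemma not_mem_bot (p : Q) : p ∉ (⊥ : RO Q).S := fun h => h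

lemma mem_inf {a b : RO Q} {p : Q} : p ∈ (a ⊓ b).S ↔ p ∈ a.S ∧ p ∈ b.S := Iff.rfl

lemma mem_compl {a : RO Q} {p : Q} : p ∈ (aᶜ).S ↔ ∀ q, q ≤ p → q ∉ a.S := Iff.rfl

lemma mem_iInf {ι : Sort*} {f : ι → RO Q} {p : Q} : p ∈ (⨅ i, f i).S ↔ ∀ i, p ∈ (f i).S := by
  change p ∈ (⋂ a ∈ Set.range f, a.S) ↔ _
  simp

lemma mem_iSup {ι : Sort*} {f : ι → RO Q} {p : Q} :
    p ∈ (⨆ i, f i).S ↔ ∀ q, q ≤ p → ∃ r, r ≤ q ∧ ∃ i, r ∈ (f i).S := by
  change p ∈ reg (⋃ a ∈ Set.range f, a.S) ↔ _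
  simp [reg]

lemma mem_himp {a b : RO Q} {p : Q} : p ∈ (a ⇨ b).S ↔ ∀ q, q ≤ p → q ∈ a.S → q ∈ b.S := by
  rw [himp_eq]
  change p ∈ reg (b.S ∪ (aᶜ).S) ↔ _
  constructor
  · intro h q hq hqa
    rw [b.isReg]
    intro r hr
    obtain ⟨s, hs, hs'⟩ := h r (hr.trans hq)
    rcases hs' with h' | h'
    · exact ⟨s, hs, h'⟩
    · exact absurd (a.isReg.down hqa (hs.trans hr)) (h' s le_rfl)
  · intro h q hq
    by_cases h' : ∃ r, r ≤ q ∧ r ∈ a.S
    · obtain ⟨r, h1, h2⟩ := h'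
      exact ⟨r, h1, Or.inl (h r (h1.trans hq) h2)⟩
    · exact ⟨q, le_rfl, Or.inr fun r hr hra => h' ⟨r, hr, hra⟩⟩

lemma eq_top_iff' {a : RO Q} : a = ⊤ ↔ ∀ p, p ∈ a.S := by
  constructor
  · rintro rfl p; trivial
  · intro h; exact ext' fun p => ⟨fun _ => trivial, fun _ => h p⟩

lemma eq_bot_iff' {a : RO Q} : a = ⊥ ↔ ∀ p, p ∉ a.S := by
  constructor
  · rintro rfl p; exact fun h => h
  · intro h; exact ext' fun p => ⟨fun h' => absurd h' (h p), fun h' => absurd h' (fun h => h)⟩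

/-- the regular set generated by a condition -/
def pt (p : Q) : RO Q := ⟨reg (Set.Iic p), isReg_reg _⟩

lemma mem_pt {p q : Q} : q ∈ (pt p).S ↔ ∀ r, r ≤ q → ∃ s, s ≤ r ∧ s ≤ p := Iff.rfl

lemma mem_pt_self (p : Q) : p ∈ (pt p).S := fun q hq => ⟨q, le_rfl, hq⟩

lemma pt_le_iff {p : Q} {a : RO Q} : pt p ≤ a ↔ p ∈ a.S := by
  constructor
  · intro h; exact h (mem_pt_self p)
  · intro h q hq
    rw [a.isReg]
    intro r hr
    obtain ⟨s, hs, hsp⟩ := hq r hr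
    exact ⟨s, hs, a.isReg.down h hsp⟩

lemma pt_ne_bot (p : Q) : pt p ≠ ⊥ := fun h => not_mem_bot p (h ▸ mem_pt_self p)

lemma pt_mono {p q : Q} (h : p ≤ q) : pt p ≤ pt q :=
  pt_le_iff.2 fun r hr => ⟨r, le_rfl, hr.trans h⟩

lemma exists_pt_le {a : RO Q} (h : a ≠ ⊥) : ∃ p, pt p ≤ a := by
  by_contra hcon
  push Not at hcon
  exact h (eq_bot_iff'.2 fun p hp => hcon p (pt_le_iff.2 hp))

/-- `a ≤ b` if every condition in `a` has an extension in `b` -/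
lemma le_of_dense {a b : RO Q} (h : ∀ p ∈ a.S, ∃ q, q ≤ p ∧ q ∈ b.S) : a ≤ b := fun p hp => by
  rw [b.isReg]
  exact fun q hq => h q (a.isReg.down hp hq)

lemma inf_pt_ne_bot {p q : Q} (h : pt p ⊓ pt q ≠ ⊥) : ∃ r, r ≤ p ∧ r ≤ q := by
  obtain ⟨s, hs⟩ := exists_pt_le h
  have h1 := hs (mem_pt_self s)
  obtain ⟨t, ht, htp⟩ := h1.1 s le_rfl
  obtain ⟨r, hr, hrq⟩ := h1.2 t ht
  exact ⟨r, hr.trans htp, hrq⟩

end RO

end Pool.Agent.CL
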