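import Pool.Agent.CL.RO

/-!
# Project CL: the well orders `ω₁` and `ω₂`, and the definitions of the YES side
-/

set_option autoImplicit false

namespace Pool.Agent.CL

open Set Cardinal

lemma mk_Om1 : #Om1 = ℵ₁ := by simp [Om1]

lemma mk_Om2 : #Om2 = Cardinal.aleph 2 := by simp [Om2]

lemma mk_Iio_Om1 (α : Om1) : #(Iio α) < ℵ₁ := by
  have := Cardinal.mk_Iio_lt α (by simp [Om1])
  simpa [Om1] using this

lemma mk_Iio_Om2 (α : Om2) : #(Iio α) < Cardinal.aleph 2 := by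
  have := Cardinal.mk_Iio_lt α (by simp [Om2])
  simpa [Om2] using this

lemma countable_Iio_Om1 (α : Om1) : (Iio α).Countable := by
  have := mk_Iio_Om1 α
  have h2 : #(Iio α) ≤ ℵ₀ := by
    have h3 : (ℵ₁ : Cardinal.{0}) = Order.succ ℵ₀ := Cardinal.succ_aleph0.symm
    exact Order.lt_succ_iff.1 (this.trans_eq h3)
  exact Cardinal.le_aleph0_iff_set_countable.1 h2

lemma uncountable_Om1 : ¬ (univ : Set Om1).Countable := by
  intro h
  have h1 : #(univ : Set Om1) ≤ ℵ₀ := Cardinal.mk_le_aleph0_iff.2 h.to_subtype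
  rw [Cardinal.mk_univ, mk_Om1] at h1
  exact absurd h1 (not_le.2 Cardinal.aleph0_lt_aleph_one)

/-- countable sets of countable ordinals are bounded -/
lemma Om1.bdd_of_countable {s : Set Om1} (hs : s.Countable) : ∃ b : Om1, ∀ x ∈ s, x < b := by
  by_contra hcon
  push Not at hcon
  apply uncountable_Om1
  have : (univ : Set Om1) ⊆ ⋃ x ∈ s, insert x (Iio x) := by
    intro b _
    obtain ⟨x, hx, hxb⟩ := hcon b
    rw [mem_iUnion₂]
    refine ⟨x, hx, ?_⟩
    rcases hxb.lt_or_eq with h | h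
    · exact Or.inr h
    · exact Or.inl h
  exact (hs.biUnion fun x _ => (countable_Iio_Om1 x).insert _).mono this

lemma Om1.bdd_seq (a : ℕ → Om1) : ∃ b : Om1, ∀ n, a n < b := by
  obtain ⟨b, hb⟩ := Om1.bdd_of_countable (countable_range a)
  exact ⟨b, fun n => hb _ ⟨n, rfl⟩⟩

instance : Nonempty Om1 := by
  have h2 : #Om1 ≠ 0 := by rw [mk_Om1]; exact (Cardinal.aleph_pos 1).ne'
  exact Cardinal.mk_ne_zero_iff.1 h2

instance : Nonempty Om2 := by
  have h2 : #Om2 ≠ 0 := by rw [mk_Om2]; exact (Cardinal.aleph_pos 2).ne'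
  exact Cardinal.mk_ne_zero_iff.1 h2

lemma Om1.exists_gt' (a : Om1) : ∃ b, a < b := by
  obtain ⟨b, hb⟩ := Om1.bdd_seq fun _ => a
  exact ⟨b, hb 0⟩

instance : NoMaxOrder Om1 := ⟨Om1.exists_gt'⟩

/-- sets of size at most `ℵ₁` are bounded in `ω₂` -/
lemma Om2.bdd_of_card {s : Set Om2} (hs : #s ≤ ℵ₁) : ∃ b : Om2, ∀ x ∈ s, x < b := by
  by_contra hcon
  push Not at hcon
  have : (univ : Set Om2) ⊆ ⋃ x : s, Iic (x : Om2) := by
    intro b _
    obtain ⟨x, hx, hxb⟩ := hcon b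
    exact mem_iUnion.2 ⟨⟨x, hx⟩, hxb⟩
  have h1 : #(univ : Set Om2) ≤ #(⋃ x : s, Iic (x : Om2)) := Cardinal.mk_le_mk_of_subset this
  have h2 : ∀ x : Om2, #(Iic x) ≤ ℵ₁ := by
    intro x
    have h3 : #(Iio x) ≤ ℵ₁ := by
      have h4 := mk_Iio_Om2 x
      have h5 : (Cardinal.aleph 2 : Cardinal.{0}) = Order.succ ℵ₁ := by
        rw [Cardinal.succ_aleph, one_add_one_eq_two]
      exact Order.lt_succ_iff.1 (h4.trans_eq h5)
    have h6 : Iic x = insert x (Iio x) := by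
      ext y
      simp [le_iff_lt_or_eq, or_comm]
    rw [h6]
    refine (Cardinal.mk_insert_le).trans ?_
    refine (add_le_add_left h3 1).trans ?_
    rw [Cardinal.add_one_eq (Cardinal.aleph0_le_aleph 1)]
  have h7 : #(⋃ x : s, Iic (x : Om2)) ≤ ℵ₁ := by
    refine (Cardinal.mk_iUnion_le _).trans ?_
    refine (mul_le_mul' hs (ciSup_le' fun x : s => h2 (x : Om2))).trans ?_
    exact (Cardinal.mul_eq_self (Cardinal.aleph0_le_aleph 1)).le
  rw [Cardinal.mk_univ, mk_Om2] at h1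
  have h8 : (ℵ₁ : Cardinal.{0}) < Cardinal.aleph 2 := by
    rw [Cardinal.aleph_lt_aleph]
    exact one_lt_two
  exact absurd (h1.trans h7) (not_le.2 h8)

/-- `D : ω₁ → ω₂` is strictly increasing, continuous, with supremum `δ` -/
structure IsNorm (D : Om1 → Om2) (δ : Om2) : Prop where
  mono : StrictMono D
  cont : ∀ η, Order.IsSuccLimit η → ∀ x < D η, ∃ ξ < η, x < D ξ
  lt : ∀ ξ, D ξ < δ
  cof : ∀ x < δ, ∃ ξ, x < D ξ

/-- `E` contains a closed unbounded set -/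
def ClubIn (E : Set Om1) : Prop :=
  ∃ F, F ⊆ E ∧ (∀ ξ, ∃ η ∈ F, ξ < η) ∧
    ∀ η, Order.IsSuccLimit η → (∀ ξ < η, ∃ ζ ∈ F, ξ < ζ ∧ ζ < η) → η ∈ F

/-- the poset of the YES side: functions `f : γ + 1 → ω₁` such that for all `δ ≤ γ` of cofinality
`ω₁` the function `f` is at least the identity on a club of `δ` -/
structure YP where
  /-- the largest element of the domain -/
  γ : Om2
  /-- the function (only the values at `x ≤ γ` matter) -/
  f : Om2 → Om1
  good : ∀ δ ≤ γ, ∀ D, IsNorm D δ → ClubIn {ξ | ξ ≤ f (D ξ)}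

instance : Preorder YP where
  le p q := q.γ ≤ p.γ ∧ ∀ x ≤ q.γ, p.f x = q.f x
  le_refl _ := ⟨le_rfl, fun _ _ => rfl⟩
  le_trans p q r h1 h2 := ⟨h2.1.trans h1.1, fun x hx =>
    (h1.2 x (hx.trans h2.1)).trans (h2.2 x hx)⟩

end Pool.Agent.CL
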