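import Mathlib

/-!
# Colourings with `ℵ₁` colours on closed sets of order type `ω₁`: the definitions of the statement

`B` is a complete Boolean algebra. A name for an element of a set `X` of the ground model is a
partition of unity of `B` indexed by `X`. Ordinals are represented by well ordered types; `Om1` is
a well ordered type of order type `ω₁`, `Om2` one of order type `ω₂`.
-/

set_option autoImplicit false

namespace Pool.Agent.CL

open Set

universe u v w

/-- The ordinal `ω₁` of the ground model. -/
abbrev Om1 : Type := (Cardinal.aleph.{0} 1).ord.ToType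

/-- The ordinal `ω₂` of the ground model. -/
abbrev Om2 : Type := (Cardinal.aleph.{0} 2).ord.ToType

/-- A `B`-name of an element of `X`: `val x` is the Boolean value of `the element is `x``. -/
@[ext] structure Nm (B : Type u) [CompleteBooleanAlgebra B] (X : Type v) where
  /-- the Boolean value of `the element is `x`` -/
  val : X → B
  disj : ∀ x y, x ≠ y → val x ⊓ val y = ⊥
  top : ⨆ x, val x = ⊤

section

variable {B : Type u} [CompleteBooleanAlgebra B]

/-- The Boolean value of ``f` has the property `p``. -/
def Nm.P {X : Type v} (f : Nm B X) (p : X → Prop) : B := ⨆ x, ⨆ _ : p x, f.val x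

/-- The Boolean value of ``f < g``. -/
def Nm.lt {X : Type v} [LT X] (f g : Nm B X) : B := ⨆ x, ⨆ y, ⨆ _ : x < y, f.val x ⊓ g.val y

end

/-- `B` preserves `ω₁`: every function from `ω` to `ω₁` of the Boolean-valued universe is
bounded. -/
def PresOm1 (B : Type u) [CompleteBooleanAlgebra B] : Prop :=
  ∀ f : ℕ → Nm B Om1, ⨆ ξ : Om1, ⨅ n, (f n).P (· < ξ) = ⊤

/-- In the Boolean-valued universe over `B`, the ordinal `K` is a regular cardinal above `ω₁` and
all smaller ordinals have cardinality at most `ω₁`: every function from `ω₁` to `K` is bounded,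
and every `x : K` is covered by the values of a function with domain `ω₁`. Together with
`PresOm1 B` this says that `K` is the `ω₂` of this universe. -/
structure IsOmega2 (B : Type u) [CompleteBooleanAlgebra B] (K : Type v) [LinearOrder K] :
    Prop where
  bdd : ∀ f : Om1 → Nm B K, ⨆ δ : K, ⨅ ξ, (f ξ).P (· < δ) = ⊤
  coll : ∀ δ : K, ∃ f : Om1 → Nm B K, ∀ x < δ, ⨆ ξ, (f ξ).val x = ⊤

section

variable (B : Type u) [CompleteBooleanAlgebra B] (K : Type v) [LinearOrder K]

/-- The Boolean value of ``e : ω₁ → K` is strictly increasing`. -/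
def incV (e : Om1 → Nm B K) : B := ⨅ ξ, ⨅ η, ⨅ _ : ξ < η, (e ξ).lt (e η)

/-- The Boolean value of ``e : ω₁ → K` is continuous at all limit points of `ω₁``, that is, no
element of `K` lies between all `e ξ`, `ξ < η`, and `e η`, for limits `η`. -/
def contV (e : Om1 → Nm B K) : B :=
  ⨅ η : Om1, ⨅ _ : Order.IsSuccLimit η, ⨅ δ : K, (e η).P (δ < ·) ⇨ ⨆ ξ, ⨆ _ : ξ < η, (e ξ).P (δ < ·)

/-- The Boolean value of `all colours `c (e ξ, e η)`, `ξ < η`, are smaller than `ν``. -/
def colV (c : K → K → Nm B Om1) (e : Om1 → Nm B K) (ν : Om1) : B :=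
  ⨅ ξ, ⨅ η, ⨅ _ : ξ < η, ⨆ α, ⨆ β, (e ξ).val α ⊓ (e η).val β ⊓ (c α β).P (· < ν)

/-- The Boolean value of the negated form of the question Q1 for `K`: every colouring
`c : [K]² → ω₁` admits a closed set `A ⊆ K` of order type `ω₁` (the range of a strictly
increasing continuous function `e : ω₁ → K`) on whose pairs only countably many colours occur
(all these colours are smaller than some `ν < ω₁`). -/
def negQ : B :=
  ⨅ c : K → K → Nm B Om1, ⨆ e : Om1 → Nm B K, incV B K e ⊓ contV B K e ⊓ ⨆ ν, colV B K c e ν

end

/-- A normal ultrafilter on a well ordered type: it contains all final segments, and every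
regressive function is constant on a set of the ultrafilter. -/
structure NormalU {I : Type u} [LinearOrder I] (U : Ultrafilter I) : Prop where
  unif : ∀ i : I, ∀ᶠ j in U, i < j
  norm : ∀ f : I → I, (∀ᶠ j in U, f j < j) → ∃ i, ∀ᶠ j in U, f j = i

/-- The order type of `I` is a measurable cardinal (Mitchell order at least `1`). -/
def Mit1 (I : Type u) [LinearOrder I] : Prop := ∃ U : Ultrafilter I, NormalU U

/-- The order type of `I` is a measurable cardinal of Mitchell order at least `2`. -/
def Mit2 (I : Type u) [LinearOrder I] : Prop :=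
  ∃ U : Ultrafilter I, NormalU U ∧ ∀ᶠ i in (U : Filter I), Mit1 (Iio i)

/-- The order type of `I` is a measurable cardinal of Mitchell order at least `3`. -/
def Mit3 (I : Type u) [LinearOrder I] : Prop :=
  ∃ U : Ultrafilter I, NormalU U ∧ ∀ᶠ i in (U : Filter I), Mit2 (Iio i)

/-- **Independence of the question Q1 for `κ = ω₂`, and consistency of the negated form for all
regular `κ ≥ ω₂`.**

* There is a complete Boolean algebra that preserves `ω₁` and `ω₂` and forces that the question
  has a positive answer for `ω₂`.
* If `K` is a measurable cardinal of Mitchell order at least `3`, there is a complete Boolean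
  algebra that preserves `ω₁`, makes `K` equal to `ω₂`, and forces the negated form for every
  ordinal `L ≥ K`. -/
def Statement : Prop :=
  (∃ (B : Type) (_ : CompleteBooleanAlgebra B), Nontrivial B ∧ PresOm1 B ∧ IsOmega2 B Om2 ∧
    negQ B Om2 = ⊥) ∧
  ∀ (K : Type u) [LinearOrder K] [WellFoundedLT K], Mit3 K →
    ∃ (B : Type u) (_ : CompleteBooleanAlgebra B), Nontrivial B ∧ PresOm1 B ∧ IsOmega2 B K ∧
      ∀ (L : Type u) [LinearOrder L] [WellFoundedLT L], Nonempty (K ≤i L) → negQ B L = ⊤

end Pool.Agent.CL
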