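import Pool.Agent.CL.Om

/-!
# Project CL, YES side: the forcing `YP` forces a positive answer (modulo distributivity)
-/

set_option autoImplicit false

namespace Pool.Agent.CL

open Set Cardinal

universe v

namespace YesOf

/-- the distributivity of `YP` -/
def Dist : Prop := ∀ D : Om1 → Set YP, (∀ ξ p q, q ≤ p → p ∈ D ξ → q ∈ D ξ) →
  (∀ ξ p, ∃ q, q ≤ p ∧ q ∈ D ξ) → ∀ p : YP, ∃ q, q ≤ p ∧ ∀ ξ, q ∈ D ξ

/-- conditions can be extended -/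
def Ext : Prop := ∀ (p : YP) (x : Om2), ∃ q, q ≤ p ∧ x ≤ q.γ

instance : Nonempty YP := by
  classical
  have hne : (univ : Set Om2).Nonempty := univ_nonempty
  refine ⟨⟨wellFounded_lt.min univ hne, fun _ => Classical.arbitrary Om1, fun δ hδ D hD => ?_⟩⟩
  have h1 := hD.lt (Classical.arbitrary Om1)
  exact absurd (h1.trans_le hδ) (wellFounded_lt.not_lt_min univ (mem_univ _))

/-- a surjection from `ω₁` -/
theorem exists_surj (ι : Type) [Nonempty ι] (h : #ι ≤ ℵ₁) :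
    ∃ e : Om1 → ι, Function.Surjective e := by
  rw [← mk_Om1] at h
  obtain ⟨f⟩ := h
  exact ⟨Function.invFun f, Function.invFun_surjective f.injective⟩

/-- decide `ℵ₁` many names at once -/
theorem decide_names (hdist : Dist) {X : Type v} {ι : Type} [Nonempty ι] (h : #ι ≤ ℵ₁)
    (f : ι → Nm (RO YP) X) (p : YP) :
    ∃ q, q ≤ p ∧ ∃ g : ι → X, ∀ i, q ∈ ((f i).val (g i)).S := by
  obtain ⟨e, he⟩ := exists_surj ι h
  obtain ⟨q, hq, hqD⟩ := hdist (fun ξ => {r | ∃ x, r ∈ ((f (e ξ)).val x).S})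
    (fun ξ p q hqp hp => by
      obtain ⟨x, hx⟩ := hp
      exact ⟨x, ((f (e ξ)).val x).isReg.down hx hqp⟩)
    (fun ξ p => by
      have h1 : p ∈ (⨆ x, (f (e ξ)).val x).S := by
        rw [(f (e ξ)).top]
        exact RO.mem_top p
      obtain ⟨r, hr, x, hx⟩ := RO.mem_iSup.1 h1 p le_rfl
      exact ⟨r, hr, x, hx⟩) p
  refine ⟨q, hq, ?_⟩
  have h2 : ∀ i, ∃ x, q ∈ ((f i).val x).S := by
    intro i
    obtain ⟨ξ, rfl⟩ := he i
    exact hqD ξ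
  choose g hg using h2
  exact ⟨g, hg⟩

/-- names have only one value -/
theorem name_uniq {X : Type v} (f : Nm (RO YP) X) {p q : YP} {x y : X} (hx : p ∈ (f.val x).S)
    (hy : q ∈ (f.val y).S) (hqp : q ≤ p) : x = y := by
  by_contra hne
  have h1 := f.disj x y hne
  have h2 : q ∈ (f.val x ⊓ f.val y).S := RO.mem_inf.2 ⟨(f.val x).isReg.down hx hqp, hy⟩
  rw [h1] at h2
  exact RO.not_mem_bot q h2

/-- the value has the property -/
theorem mem_P {X : Type v} (f : Nm (RO YP) X) {p : YP} {x : X} (hx : p ∈ (f.val x).S)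
    {R : X → Prop} (hR : R x) : p ∈ (f.P R).S := by
  have h1 : f.val x ≤ f.P R := le_iSup₂_of_le x hR le_rfl
  exact RO.le_def.1 h1 hx

/-- a property of a name is decided by an extension -/
theorem of_mem_P {X : Type v} (f : Nm (RO YP) X) {p : YP} {R : X → Prop}
    (h : p ∈ (f.P R).S) : ∃ q, q ≤ p ∧ ∃ x, R x ∧ q ∈ (f.val x).S := by
  obtain ⟨q, hq, x, hx⟩ := RO.mem_iSup.1 h p le_rfl
  obtain ⟨r, hr, hR, hrx⟩ := RO.mem_iSup.1 hx q le_rfl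
  exact ⟨r, hr.trans hq, x, hR, hrx⟩

theorem presOm1 (hdist : Dist) : PresOm1 (RO YP) := by
  intro f
  rw [RO.eq_top_iff']
  intro p
  rw [RO.mem_iSup]
  intro q _
  obtain ⟨r, hr, g, hg⟩ := decide_names hdist (ι := ℕ)
    (by rw [Cardinal.mk_nat]; exact Cardinal.aleph0_le_aleph 1) f q
  obtain ⟨b, hb⟩ := Om1.bdd_seq g
  refine ⟨r, hr, b, RO.mem_iInf.2 fun n => ?_⟩
  exact mem_P (f n) (hg n) (hb n)

theorem card_Iio_Om2 (δ : Om2) : #(Iio δ) ≤ ℵ₁ := by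
  have h4 := mk_Iio_Om2 δ
  have h5 : (Cardinal.aleph 2 : Cardinal.{0}) = Order.succ ℵ₁ := by
    rw [Cardinal.succ_aleph, one_add_one_eq_two]
  exact Order.lt_succ_iff.1 (h4.trans_eq h5)

open Classical in
/-- the check name -/
noncomputable def chk {X : Type v} (x : X) : Nm (RO YP) X where
  val y := if y = x then ⊤ else ⊥
  disj y z hyz := by
    by_cases hy : y = x
    · have hz : z ≠ x := fun h => hyz (hy.trans h.symm)
      rw [if_neg hz, inf_bot_eq]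
    · rw [if_neg hy, bot_inf_eq]
  top := by
    refine le_antisymm le_top ?_
    refine le_iSup_of_le x ?_
    rw [if_pos rfl]

theorem chk_self {X : Type v} (x : X) : (chk x).val x = ⊤ := if_pos rfl

theorem isOmega2 (hdist : Dist) : IsOmega2 (RO YP) Om2 := by
  constructor
  · intro f
    rw [RO.eq_top_iff']
    intro p
    rw [RO.mem_iSup]
    intro q _
    obtain ⟨r, hr, g, hg⟩ := decide_names hdist (ι := Om1) mk_Om1.le f q
    obtain ⟨b, hb⟩ := Om2.bdd_of_card (s := range g) (Cardinal.mk_range_le.trans mk_Om1.le)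
    refine ⟨r, hr, b, RO.mem_iInf.2 fun n => ?_⟩
    exact mem_P (f n) (hg n) (hb _ ⟨n, rfl⟩)
  · intro δ
    by_cases hne : Nonempty (Iio δ)
    · obtain ⟨e, he⟩ := exists_surj (Iio δ) (card_Iio_Om2 δ)
      refine ⟨fun ξ => chk (e ξ : Om2), fun x hx => le_antisymm le_top ?_⟩
      obtain ⟨ξ, hξ⟩ := he ⟨x, hx⟩
      refine le_iSup_of_le ξ ?_
      have h1 : ((e ξ : Iio δ) : Om2) = x := by rw [hξ]
      show (⊤ : RO YP) ≤ (chk ((e ξ : Iio δ) : Om2)).val x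
      rw [h1, chk_self]
    · refine ⟨fun _ => chk (Classical.arbitrary Om2), fun x hx => ?_⟩
      exact absurd ⟨⟨x, hx⟩⟩ hne

/-- the generic colour -/
noncomputable def gen (hext : Ext) (x : Om2) : Nm (RO YP) Om1 where
  val ζ := ⟨reg {r : YP | x ≤ r.γ ∧ r.f x = ζ}, isReg_reg _⟩
  disj ζ ζ' hne := by
    rw [RO.eq_bot_iff']
    intro p hp
    obtain ⟨h1, h2⟩ := RO.mem_inf.1 hp
    obtain ⟨r, hr, hrx, hrf⟩ := h1 p le_rfl
    obtain ⟨s, hs, hsx, hsf⟩ := h2 r hr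
    have h3 := hs.2 x hrx
    exact hne (by rw [← hrf, ← hsf, h3])
  top := by
    rw [RO.eq_top_iff']
    intro p
    rw [RO.mem_iSup]
    intro q _
    obtain ⟨r, hr, hrx⟩ := hext q x
    refine ⟨r, hr, r.f x, fun s hs => ⟨s, le_rfl, ?_, ?_⟩⟩
    · exact hrx.trans hs.1
    · exact hs.2 x hrx

theorem mem_gen (hext : Ext) (x : Om2) (ζ : Om1) (p : YP) : p ∈ ((gen hext x).val ζ).S ↔
    ∀ q, q ≤ p → ∃ r, r ≤ q ∧ x ≤ r.γ ∧ r.f x = ζ := Iff.rfl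

theorem negQ_bot (hdist : Dist) (hext : Ext) : negQ (RO YP) Om2 = ⊥ := by
  rw [eq_bot_iff]
  unfold negQ
  refine iInf_le_of_le (fun α _ => gen hext α) (iSup_le fun e => ?_)
  rw [← eq_bot_iff, RO.eq_bot_iff']
  intro p₀ hp₀
  obtain ⟨⟨hinc₀, hcont₀⟩, hcol₀⟩ := hp₀
  obtain ⟨p, hp, ν, hcol⟩ := RO.mem_iSup.1 hcol₀ p₀ le_rfl
  have hinc := (incV (RO YP) Om2 e).isReg.down hinc₀ hp
  have hcont := (contV (RO YP) Om2 e).isReg.down hcont₀ hp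
  obtain ⟨q, hq, D, hD⟩ := decide_names hdist (ι := Om1) mk_Om1.le e p
  have hmono : StrictMono D := by
    intro ξ η hξη
    have h1 : q ∈ ((e ξ).lt (e η)).S := by
      have h2 := (incV (RO YP) Om2 e).isReg.down hinc hq
      unfold incV at h2
      exact RO.mem_iInf.1 (RO.mem_iInf.1 (RO.mem_iInf.1 h2 ξ) η) hξη
    unfold Nm.lt at h1
    obtain ⟨r1, hr1, x, h2⟩ := RO.mem_iSup.1 h1 q le_rfl
    obtain ⟨r2, hr2, y, h3⟩ := RO.mem_iSup.1 h2 r1 le_rfl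
    obtain ⟨r3, hr3, hxy, h4⟩ := RO.mem_iSup.1 h3 r2 le_rfl
    obtain ⟨h5, h6⟩ := RO.mem_inf.1 h4
    have h7 : r3 ≤ q := (hr3.trans hr2).trans hr1
    rw [name_uniq (e ξ) (hD ξ) h5 h7, name_uniq (e η) (hD η) h6 h7]
    exact hxy
  have hcontD : ∀ η, Order.IsSuccLimit η → ∀ x < D η, ∃ ξ < η, x < D ξ := by
    intro η hη x hx
    have h1 : q ∈ ((e η).P (x < ·) ⇨ ⨆ ξ, ⨆ _ : ξ < η, (e ξ).P (x < ·)).S := by
      have h2 := (contV (RO YP) Om2 e).isReg.down hcont hq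
      unfold contV at h2
      exact RO.mem_iInf.1 (RO.mem_iInf.1 (RO.mem_iInf.1 h2 η) hη) x
    have h2 := RO.mem_himp.1 h1 q le_rfl (mem_P (e η) (hD η) hx)
    obtain ⟨r1, hr1, ξ, h3⟩ := RO.mem_iSup.1 h2 q le_rfl
    obtain ⟨r2, hr2, hξ, h4⟩ := RO.mem_iSup.1 h3 r1 le_rfl
    obtain ⟨r3, hr3, y, hy, h5⟩ := of_mem_P (e ξ) h4
    have h6 : r3 ≤ q := (hr3.trans hr2).trans hr1
    rw [← name_uniq (e ξ) (hD ξ) h5 h6] at hy
    exact ⟨ξ, hξ, hy⟩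
  obtain ⟨b, hb⟩ := Om2.bdd_of_card (s := range D) (Cardinal.mk_range_le.trans mk_Om1.le)
  have hne : {b : Om2 | ∀ ξ, D ξ < b}.Nonempty := ⟨b, fun ξ => hb _ ⟨ξ, rfl⟩⟩
  have hnorm : IsNorm D (wellFounded_lt.min {b : Om2 | ∀ ξ, D ξ < b} hne) := by
    refine ⟨hmono, hcontD, wellFounded_lt.min_mem {b : Om2 | ∀ ξ, D ξ < b} hne,
      fun x hx => ?_⟩
    have h1 : x ∉ {b : Om2 | ∀ ξ, D ξ < b} := fun h =>
      wellFounded_lt.not_lt_min {b : Om2 | ∀ ξ, D ξ < b} h hx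
    have h2 : ∃ ξ, x ≤ D ξ := by
      by_contra hcon
      push Not at hcon
      exact h1 hcon
    obtain ⟨ξ, hξ⟩ := h2
    obtain ⟨η, hη⟩ := exists_gt ξ
    exact ⟨η, hξ.trans_lt (hmono hη)⟩
  obtain ⟨q', hq', hδ⟩ := hext q (wellFounded_lt.min {b : Om2 | ∀ ξ, D ξ < b} hne)
  obtain ⟨F, hFE, hFu, -⟩ := q'.good _ hδ D hnorm
  obtain ⟨ξ, hξF, hνξ⟩ := hFu ν
  have hξ : ξ ≤ q'.f (D ξ) := hFE hξF
  obtain ⟨η, hη⟩ := exists_gt ξ
  have hcol' : q' ∈ (⨆ α, ⨆ β, (e ξ).val α ⊓ (e η).val β ⊓ (gen hext α).P (· < ν)).S := by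
    have h2 := (colV (RO YP) Om2 (fun α _ => gen hext α) e ν).isReg.down hcol (hq'.trans hq)
    unfold colV at h2
    exact RO.mem_iInf.1 (RO.mem_iInf.1 (RO.mem_iInf.1 h2 ξ) η) hη
  obtain ⟨r1, hr1, α, h2⟩ := RO.mem_iSup.1 hcol' q' le_rfl
  obtain ⟨r2, hr2, β, h3⟩ := RO.mem_iSup.1 h2 r1 le_rfl
  obtain ⟨h4, h5⟩ := RO.mem_inf.1 h3
  obtain ⟨h6, -⟩ := RO.mem_inf.1 h4
  have h7 : r2 ≤ q' := hr2.trans hr1
  have h8 : D ξ = α := name_uniq (e ξ) (hD ξ) h6 (h7.trans hq')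
  obtain ⟨r3, hr3, ζ, hζ, h9⟩ := of_mem_P (gen hext α) h5
  obtain ⟨r4, hr4, -, h10⟩ := (mem_gen hext α ζ r3).1 h9 r3 le_rfl
  have h11 : r4 ≤ q' := (hr4.trans hr3).trans h7
  have h12 : D ξ ≤ q'.γ := (hnorm.lt ξ).le.trans hδ
  have h13 := h11.2 (D ξ) h12
  rw [← h8] at h10
  rw [h13] at h10
  rw [h10] at hξ
  exact absurd (hνξ.trans_le hξ) (not_lt.2 hζ.le)

end YesOf

open YesOf in
/-- the YES side, modulo distributivity -/
theorem yes_side_of (hdist : Dist) (hext : YesOf.Ext) :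
    ∃ (B : Type) (_ : CompleteBooleanAlgebra B), Nontrivial B ∧ PresOm1 B ∧ IsOmega2 B Om2 ∧
      negQ B Om2 = ⊥ := by
  refine ⟨RO YP, inferInstance, ⟨⊥, ⊤, fun h => ?_⟩, presOm1 hdist, isOmega2 hdist,
    negQ_bot hdist hext⟩
  obtain ⟨p⟩ := (inferInstance : Nonempty YP)
  exact RO.not_mem_bot p (h ▸ RO.mem_top p)

end Pool.Agent.CL
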